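import Pool.Agent.N659.HB.Stm
import Pool.Agent.W335.WAB.BaseJ

/-!
Project HB: estimates for a semicircle level, `S_LV`.
-/

set_option autoImplicit false

namespace Pool.Agent.N130.HB.Lv

open MeasureTheory Filter Pool.Agent.W792.LL Pool.Agent.W792.WA Pool.Agent.N659.HB
open Pool.Agent.W335.WAB.BaseJ
open scoped Topology ENNReal

noncomputable section

/-- the inner function -/
def hh (ψ : C(UnitAddCircle, ℝ)) (r : ℝ) (t : ℂ) (a : ℝ) : ℂ :=
  ((1 / r : ℝ) : ℂ) * Mf ψ ((t + a) / r)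

theorem bet_eq (ψ : C(UnitAddCircle, ℝ)) {r : ℝ} (hr : 0 < r) (ρ : Measure ℝ)
    [IsProbabilityMeasure ρ] {t : ℂ} (ht : t.im < 0) :
    bet ((lev ψ r).conv ρ) t = ∫ a, hh ψ r t a ∂ρ := by
  unfold bet
  rw [conv_eq ψ r ρ ht, Hf_eq ψ hr]
  rfl

/-- Cauchy-Schwarz on a probability space -/
theorem sq_int_le (ρ : Measure ℝ) [IsProbabilityMeasure ρ] (g : ℝ → ℝ) (hg : Integrable g ρ)
    (hg2 : Integrable (fun a => g a ^ 2) ρ) : (∫ a, g a ∂ρ) ^ 2 ≤ ∫ a, g a ^ 2 ∂ρ := by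
  set m := ∫ a, g a ∂ρ with hm
  have h1 : 0 ≤ ∫ a, (g a - m) ^ 2 ∂ρ := integral_nonneg fun a => sq_nonneg _
  have h2 : ∀ a, (g a - m) ^ 2 = g a ^ 2 - 2 * m * g a + m ^ 2 := fun a => by ring
  simp only [h2] at h1
  have i1 : Integrable (fun a => 2 * m * g a) ρ := hg.const_mul _
  have i2 : Integrable (fun a => g a ^ 2 - 2 * m * g a) ρ := hg2.sub i1
  rw [integral_add i2 (integrable_const _), integral_sub hg2 i1, integral_const_mul, ← hm] at h1
  simp at h1
  linarith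

/-- real and imaginary part of the quadratic equation -/
theorem quad_parts {M w : ℂ} (h : (M / 2) ^ 2 - 2 * w * (M / 2) + 1 = 0) :
    M.re * (1 + (M.re ^ 2 + M.im ^ 2) / 4) = w.re * (M.re ^ 2 + M.im ^ 2) ∧
    M.im * (1 - (M.re ^ 2 + M.im ^ 2) / 4) = -w.im * (M.re ^ 2 + M.im ^ 2) ∧
    0 < M.re ^ 2 + M.im ^ 2 := by
  have h' : M ^ 2 / 4 - w * M + 1 = 0 := by linear_combination h
  have hre := congrArg Complex.re h'
  have him := congrArg Complex.im h'
  have e4 : M ^ 2 / 4 = ((1 / 4 : ℝ) : ℂ) * (M * M) := by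
    push_cast
    ring
  rw [e4] at hre him
  simp only [Complex.sub_re, Complex.add_re, Complex.mul_re, Complex.one_re, Complex.ofReal_re,
    Complex.ofReal_im, Complex.zero_re, Complex.sub_im, Complex.add_im, Complex.mul_im,
    Complex.one_im, Complex.zero_im] at hre him
  refine ⟨?_, ?_, ?_⟩
  · linear_combination M.re * hre + M.im * him
  · linear_combination M.im * hre - M.re * him
  · have hM : M ≠ 0 := by
      rintro rfl
      simp at h
    by_contra hc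
    push Not at hc
    have h1 : M.re = 0 := by nlinarith [sq_nonneg M.re, sq_nonneg M.im]
    have h2 : M.im = 0 := by nlinarith [sq_nonneg M.re, sq_nonneg M.im]
    exact hM (Complex.ext h1 h2)

theorem hh_sq (ψ : C(UnitAddCircle, ℝ)) {r : ℝ} (hr : 0 < r) (t : ℂ) (a : ℝ) :
    ‖hh ψ r t a‖ ^ 2 = (1 / r) ^ 2 * ((Mf ψ ((t + a) / r)).re ^ 2 +
      (Mf ψ ((t + a) / r)).im ^ 2) := by
  unfold hh
  rw [norm_mul, mul_pow, Complex.norm_real, Real.norm_of_nonneg (by positivity), Complex.sq_norm,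
    Complex.normSq_apply]
  ring

theorem hh_im (ψ : C(UnitAddCircle, ℝ)) (r : ℝ) (t : ℂ) (a : ℝ) :
    (hh ψ r t a).im = 1 / r * (Mf ψ ((t + a) / r)).im := by
  unfold hh
  rw [Complex.im_ofReal_mul]

theorem div_re (t : ℂ) (a r : ℝ) : ((t + a) / (r : ℂ)).re = (t.re + a) / r := by
  rw [Complex.div_ofReal_re]
  simp

theorem div_im (t : ℂ) (a r : ℝ) : ((t + a) / (r : ℂ)).im = t.im / r := by
  rw [Complex.div_ofReal_im]
  simp

/-- the main pointwise inequality -/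
theorem hh_key {ψ : C(UnitAddCircle, ℝ)} (hψ : IsSemi ψ) {r : ℝ} (hr : 0 < r) {t : ℂ}
    (ht : t.im < 0) (a : ℝ) :
    (-t.im) * (‖hh ψ r t a‖ ^ 2 + r ^ 2 / 4 * (‖hh ψ r t a‖ ^ 2) ^ 2) ≤ (hh ψ r t a).im := by
  obtain ⟨h1, h2, h3, -⟩ := Mf_props hψ (im_div ht hr a)
  obtain ⟨-, k2, k3⟩ := quad_parts h1
  have h5 := Mf_im ψ (im_div ht hr a)
  rw [div_im] at k2
  rw [hh_sq ψ hr, hh_im]
  set y := (Mf ψ ((t + a) / r)).im with hy
  set U := (Mf ψ ((t + a) / r)).re ^ 2 + y ^ 2 with hU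
  have e1 : -(t.im / r) = (-t.im) / r := by ring
  rw [e1] at k2
  have hv : 0 < -t.im := by linarith
  -- y = y (1 - U/4) + y U / 4
  have k4 : (-t.im) / r * U ≤ y := by
    have : 0 ≤ y * (U / 4) := mul_nonneg h5 (by linarith)
    nlinarith
  have k5 : (-t.im) / r * U + (-t.im) / r * U * (U / 4) ≤ y := by
    have : (-t.im) / r * U * (U / 4) ≤ y * (U / 4) := mul_le_mul_of_nonneg_right k4 (by linarith)
    nlinarith
  have k6 : (-t.im) * ((1 / r) ^ 2 * U + r ^ 2 / 4 * ((1 / r) ^ 2 * U) ^ 2) =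
      1 / r * ((-t.im) / r * U + (-t.im) / r * U * (U / 4)) := by
    field_simp
    ring
  rw [k6]
  exact mul_le_mul_of_nonneg_left k5 (by positivity)

/-- lower bound for the imaginary part -/
theorem hh_low {ψ : C(UnitAddCircle, ℝ)} (hψ : IsSemi ψ) {r : ℝ} (hr : 0 < r) {t : ℂ}
    (ht : t.im < 0) {a : ℝ} (ha : |t.re + a| ≤ r / 2) (htr : -r ≤ t.im) :
    2 / (5 * r) ≤ (hh ψ r t a).im := by
  obtain ⟨h1, h2, h3, -⟩ := Mf_props hψ (im_div ht hr a)
  obtain ⟨k1, k2, k3⟩ := quad_parts h1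
  have h5 := Mf_im ψ (im_div ht hr a)
  rw [div_im] at k2
  rw [div_re] at k1
  rw [hh_im]
  set x := (Mf ψ ((t + a) / r)).re with hx
  set y := (Mf ψ ((t + a) / r)).im with hy
  set U := x ^ 2 + y ^ 2 with hU
  have hw1 : ((t.re + a) / r) ^ 2 ≤ 1 / 4 := by
    have : |(t.re + a) / r| ≤ 1 / 2 := by
      rw [abs_div, abs_of_pos hr, div_le_iff₀ hr]
      linarith
    rw [← sq_abs]
    have h0 := abs_nonneg ((t.re + a) / r)
    nlinarith
  have hw2 : -(t.im / r) ≤ 1 := by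
    rw [← neg_div, div_le_one hr]
    linarith
  suffices hs : 2 / 5 ≤ y by
    calc 2 / (5 * r) = 1 / r * (2 / 5) := by
          field_simp
      _ ≤ _ := mul_le_mul_of_nonneg_left hs (by positivity)
  by_contra hc
  push Not at hc
  have g1 : x ^ 2 * (1 + U / 4) ^ 2 = ((t.re + a) / r) ^ 2 * U ^ 2 := by
    have : (x * (1 + U / 4)) ^ 2 = ((t.re + a) / r * U) ^ 2 := by rw [k1]
    linarith [this, mul_pow x (1 + U / 4) 2, mul_pow ((t.re + a) / r) U 2]
  have g2 : x ^ 2 * U ≤ U ^ 2 / 4 := by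
    have e1 : U ≤ (1 + U / 4) ^ 2 := by nlinarith [sq_nonneg (1 - U / 4)]
    have e2 : x ^ 2 * U ≤ x ^ 2 * (1 + U / 4) ^ 2 := mul_le_mul_of_nonneg_left e1 (sq_nonneg x)
    have e3 : ((t.re + a) / r) ^ 2 * U ^ 2 ≤ 1 / 4 * U ^ 2 :=
      mul_le_mul_of_nonneg_right hw1 (sq_nonneg U)
    linarith
  have g3 : x ^ 2 ≤ U / 4 := by
    have : x ^ 2 * U ≤ U / 4 * U := by nlinarith
    exact le_of_mul_le_mul_right this k3
  have g4 : 3 * U / 4 ≤ y ^ 2 := by linarith
  have hy0 : 0 < y := by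
    rcases h5.lt_or_eq with h | h
    · exact h
    · exfalso
      rw [← h] at g4
      nlinarith
  have g5 : y * (1 - U / 4) ≤ U := by
    rw [k2]
    calc -(t.im / r) * U ≤ 1 * U := mul_le_mul_of_nonneg_right hw2 k3.le
      _ = U := one_mul U
  have g6 : 1 - U / 4 ≤ 4 / 3 * y := by
    have : y * (1 - U / 4) ≤ y * (4 / 3 * y) := by nlinarith
    exact le_of_mul_le_mul_left this hy0
  nlinarith

theorem hh_int {ψ : C(UnitAddCircle, ℝ)} (hψ : IsSemi ψ) {r : ℝ} (hr : 0 < r) {t : ℂ}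
    (ht : t.im < 0) (ρ : Measure ℝ) [IsProbabilityMeasure ρ] : Integrable (hh ψ r t) ρ :=
  inner_int hψ hr ht ρ

theorem hh_cont {ψ : C(UnitAddCircle, ℝ)} (hψ : IsSemi ψ) {r : ℝ} (hr : 0 < r) {t : ℂ}
    (ht : t.im < 0) : Continuous (hh ψ r t) := inner_cont hψ hr ht

theorem hh_bound {ψ : C(UnitAddCircle, ℝ)} (hψ : IsSemi ψ) {r : ℝ} (hr : 0 < r) {t : ℂ}
    (ht : t.im < 0) (a : ℝ) : ‖hh ψ r t a‖ ≤ 2 / r := inner_bound hψ hr ht a

theorem im_int {ψ : C(UnitAddCircle, ℝ)} (hψ : IsSemi ψ) {r : ℝ} (hr : 0 < r) {t : ℂ}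
    (ht : t.im < 0) (ρ : Measure ℝ) [IsProbabilityMeasure ρ] :
    (∫ a, hh ψ r t a ∂ρ).im = ∫ a, (hh ψ r t a).im ∂ρ :=
  (integral_im (hh_int hψ hr ht ρ)).symm

theorem pow_int {ψ : C(UnitAddCircle, ℝ)} (hψ : IsSemi ψ) {r : ℝ} (hr : 0 < r) {t : ℂ}
    (ht : t.im < 0) (ρ : Measure ℝ) [IsProbabilityMeasure ρ] (k : ℕ) :
    Integrable (fun a => ‖hh ψ r t a‖ ^ k) ρ := by
  refine Integrable.of_bound ((hh_cont hψ hr ht).norm.pow k).aestronglyMeasurable ((2 / r) ^ k)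
    (ae_of_all _ fun a => ?_)
  rw [norm_pow, norm_norm]
  exact pow_le_pow_left₀ (norm_nonneg _) (hh_bound hψ hr ht a) k

theorem psi_le {ψ : C(UnitAddCircle, ℝ)} (hψ : IsSemi ψ) {r : ℝ} (hr : 0 < r) {a : ℝ}
    (ha : |a| ≤ r / 8) (φ : UnitAddCircle) : |r * ψ φ + a| ≤ 9 * r / 8 := by
  have h1 : |r * ψ φ| ≤ r := by
    rw [abs_mul, abs_of_pos hr]
    have := hψ.bound φ
    nlinarith
  calc |r * ψ φ + a| ≤ |r * ψ φ| + |a| := abs_add_le _ _
    _ ≤ r + r / 8 := add_le_add h1 ha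
    _ = _ := by ring

theorem hh_inner (ψ : C(UnitAddCircle, ℝ)) {r : ℝ} (hr : 0 < r) (t : ℂ) (a : ℝ) :
    hh ψ r t a = ∫ φ in Set.Ioc (0 : ℝ) 1, 1 / (t + ((r * ψ (φ : UnitAddCircle) + a : ℝ) : ℂ)) :=
  (inner_eq ψ hr t a).symm

/-- `S_LV` -/
theorem main : S_LV := by
  intro ψ hψ r ρ' _ hr hρ t ht
  rw [bet_eq ψ hr ρ' ht]
  have hsupp : ∀ᵐ a ∂ρ', |a| ≤ r / 8 := by
    have h4 : ∀ᵐ a ∂ρ', a ∈ Set.Icc (-(r / 8)) (r / 8) := by
      rw [ae_iff]
      exact hρ
    filter_upwards [h4] with a ha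
    exact abs_le.2 ha
  have hI := hh_int hψ hr ht ρ'
  have hIim : Integrable (fun a => (hh ψ r t a).im) ρ' := hI.im
  have p4 : -t.im / (‖t‖ + 2 * r) ^ 2 ≤ (∫ a, hh ψ r t a ∂ρ').im := by
    rw [im_int hψ hr ht]
    have h1 : ∀ᵐ a ∂ρ', -t.im / (‖t‖ + 2 * r) ^ 2 ≤ (hh ψ r t a).im := by
      filter_upwards [hsupp] with a ha
      rw [hh_inner ψ hr]
      have hint : Integrable (fun φ : ℝ => 1 / (t + ((r * ψ (φ : UnitAddCircle) + a : ℝ) : ℂ)))
          (volume.restrict (Set.Ioc (0 : ℝ) 1)) := by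
        refine Integrable.of_bound ?_ (1 / (-t.im)) (ae_of_all _ fun φ => (inv_bound ht _).2)
        exact ((cont_inv ht).comp (by
          have := cont_psi ψ
          fun_prop : Continuous fun φ : ℝ => r * ψ (φ : UnitAddCircle) + a)).aestronglyMeasurable
      have h2 : (∫ φ in Set.Ioc (0 : ℝ) 1, 1 / (t + ((r * ψ (φ : UnitAddCircle) + a : ℝ) : ℂ))).im
          = ∫ φ in Set.Ioc (0 : ℝ) 1,
            (1 / (t + ((r * ψ (φ : UnitAddCircle) + a : ℝ) : ℂ))).im := (integral_im hint).symm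
      rw [h2]
      have h3 : ∀ φ : ℝ, -t.im / (‖t‖ + 2 * r) ^ 2 ≤
          (1 / (t + ((r * ψ (φ : UnitAddCircle) + a : ℝ) : ℂ))).im := by
        intro φ
        rw [one_div, Complex.inv_im, Complex.normSq_eq_norm_sq]
        have e1 : (t + ((r * ψ (φ : UnitAddCircle) + a : ℝ) : ℂ)).im = t.im := by simp
        rw [e1]
        have h4 := inv_bound ht (r * ψ (φ : UnitAddCircle) + a)
        have h5 : 0 < ‖t + ((r * ψ (φ : UnitAddCircle) + a : ℝ) : ℂ)‖ := norm_pos_iff.2 h4.1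
        have h6 : ‖t + ((r * ψ (φ : UnitAddCircle) + a : ℝ) : ℂ)‖ ≤ ‖t‖ + 2 * r := by
          refine (norm_add_le _ _).trans ?_
          rw [Complex.norm_real, Real.norm_eq_abs]
          have := psi_le hψ hr ha (φ : UnitAddCircle)
          linarith
        exact div_le_div_of_nonneg_left (by linarith) (by positivity)
          (pow_le_pow_left₀ h5.le h6 2)
      have h4 := integral_mono (μ := volume.restrict (Set.Ioc (0 : ℝ) 1)) (integrable_const _)
        hint.im h3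
      simpa using h4
    have h5 := integral_mono_ae (μ := ρ') (integrable_const _) hIim h1
    simpa using h5
  have hFim : 0 < (∫ a, hh ψ r t a ∂ρ').im := by
    refine lt_of_lt_of_le ?_ p4
    have h0 : 0 < ‖t‖ + 2 * r := by positivity
    have : 0 < -t.im := by linarith
    positivity
  refine ⟨?_, ?_, ?_, p4, ?_, ?_⟩
  · have := norm_integral_le_of_norm_le_const (μ := ρ')
      (ae_of_all _ fun a : ℝ => hh_bound hψ hr ht a)
    simpa using this
  · intro h2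
    have hpos : 0 < |t.re| := lt_of_lt_of_le (by linarith) h2
    have h3 : ∀ᵐ a ∂ρ', ‖hh ψ r t a‖ ≤ 3 / |t.re| := by
      filter_upwards [hsupp] with a ha
      rw [hh_inner ψ hr]
      have h4 : ∀ φ : ℝ, ‖1 / (t + ((r * ψ (φ : UnitAddCircle) + a : ℝ) : ℂ))‖ ≤ 3 / |t.re| := by
        intro φ
        have h5 : |t.re| - 9 * r / 8 ≤ ‖t + ((r * ψ (φ : UnitAddCircle) + a : ℝ) : ℂ)‖ := by
          have h6 := Complex.abs_re_le_norm (t + ((r * ψ (φ : UnitAddCircle) + a : ℝ) : ℂ))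
          have h7 := psi_le hψ hr ha (φ : UnitAddCircle)
          have h8 : |t.re| ≤ |t.re + (r * ψ (φ : UnitAddCircle) + a)| +
              |r * ψ (φ : UnitAddCircle) + a| := by
            have := abs_sub (t.re + (r * ψ (φ : UnitAddCircle) + a))
              (r * ψ (φ : UnitAddCircle) + a)
            simpa using this
          simp only [Complex.add_re, Complex.ofReal_re] at h6
          linarith
        have h6 : |t.re| / 3 ≤ ‖t + ((r * ψ (φ : UnitAddCircle) + a : ℝ) : ℂ)‖ := by linarith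
        rw [norm_div, norm_one]
        calc 1 / ‖t + ((r * ψ (φ : UnitAddCircle) + a : ℝ) : ℂ)‖ ≤ 1 / (|t.re| / 3) :=
              one_div_le_one_div_of_le (by positivity) h6
          _ = _ := by field_simp
      have h5 := norm_integral_le_of_norm_le_const (μ := volume.restrict (Set.Ioc (0 : ℝ) 1))
        (ae_of_all _ h4)
      simpa using h5
    have h4 := norm_integral_le_of_norm_le_const (μ := ρ') h3
    simpa using h4
  · intro h2 h3
    rw [im_int hψ hr ht]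
    have h4 : ∀ᵐ a ∂ρ', 2 / (5 * r) ≤ (hh ψ r t a).im := by
      filter_upwards [hsupp] with a ha
      refine hh_low hψ hr ht ?_ h3
      calc |t.re + a| ≤ |t.re| + |a| := abs_add_le _ _
        _ ≤ 3 * r / 8 + r / 8 := add_le_add h2 ha
        _ = _ := by ring
    have h5 := integral_mono_ae (μ := ρ') (integrable_const _) hIim h4
    simpa using h5
  · set F := ∫ a, hh ψ r t a ∂ρ' with hF
    have hv : 0 < -t.im := by linarith
    have i2 := pow_int hψ hr ht ρ' 2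
    have i4 : Integrable (fun a => (‖hh ψ r t a‖ ^ 2) ^ 2) ρ' := by
      have := pow_int hψ hr ht ρ' 4
      refine this.congr (ae_of_all _ fun a => ?_)
      show ‖hh ψ r t a‖ ^ 4 = (‖hh ψ r t a‖ ^ 2) ^ 2
      ring
    have i1 := pow_int hψ hr ht ρ' 1
    have h1 : (-t.im) * ((∫ a, ‖hh ψ r t a‖ ^ 2 ∂ρ') +
        r ^ 2 / 4 * ∫ a, (‖hh ψ r t a‖ ^ 2) ^ 2 ∂ρ') ≤ F.im := by
      rw [hF, im_int hψ hr ht, ← integral_const_mul, ← integral_add i2 (i4.const_mul _),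
        ← integral_const_mul]
      exact integral_mono ((i2.add (i4.const_mul _)).const_mul _) hIim fun a =>
        hh_key hψ hr ht a
    have h2 : ‖F‖ ^ 2 ≤ ∫ a, ‖hh ψ r t a‖ ^ 2 ∂ρ' := by
      have e1 : ‖F‖ ≤ ∫ a, ‖hh ψ r t a‖ ∂ρ' := norm_integral_le_integral_norm _
      have e2 := sq_int_le ρ' (fun a => ‖hh ψ r t a‖) (by simpa using i1) i2
      exact (pow_le_pow_left₀ (norm_nonneg _) e1 2).trans e2
    have h3 : (‖F‖ ^ 2) ^ 2 ≤ ∫ a, (‖hh ψ r t a‖ ^ 2) ^ 2 ∂ρ' := by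
      have e2 := sq_int_le ρ' (fun a => ‖hh ψ r t a‖ ^ 2) i2 i4
      exact (pow_le_pow_left₀ (by positivity) h2 2).trans e2
    have h4 : (-t.im) * (‖F‖ ^ 2 + r ^ 2 / 4 * (‖F‖ ^ 2) ^ 2) ≤ F.im := by
      refine le_trans (mul_le_mul_of_nonneg_left ?_ hv.le) h1
      gcongr
    have hF0 : F ≠ 0 := by
      intro h
      rw [h] at hFim
      simp at hFim
    have hFn : 0 < ‖F‖ ^ 2 := by
      have := norm_pos_iff.2 hF0
      positivity
    have h5 : -(1 / F).im = F.im / ‖F‖ ^ 2 := by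
      rw [one_div, Complex.inv_im, Complex.normSq_eq_norm_sq]
      ring
    rw [h5, le_div_iff₀ hFn]
    calc (-t.im) * (1 + r ^ 2 / 4 * ‖F‖ ^ 2) * ‖F‖ ^ 2 =
        (-t.im) * (‖F‖ ^ 2 + r ^ 2 / 4 * (‖F‖ ^ 2) ^ 2) := by ring
      _ ≤ _ := h4
  · intro t' ht'
    rw [bet_eq ψ hr ρ' ht', ← integral_sub hI (hh_int hψ hr ht' ρ')]
    have hpos : 0 < t.im * t'.im := mul_pos_of_neg_of_neg ht ht'
    have h3 : ∀ a, ‖hh ψ r t a - hh ψ r t' a‖ ≤ ‖t - t'‖ / (t.im * t'.im) := by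
      intro a
      rw [hh_inner ψ hr, hh_inner ψ hr]
      have hint : ∀ s : ℂ, s.im < 0 → Integrable
          (fun φ : ℝ => 1 / (s + ((r * ψ (φ : UnitAddCircle) + a : ℝ) : ℂ)))
          (volume.restrict (Set.Ioc (0 : ℝ) 1)) := by
        intro s hs
        refine Integrable.of_bound ?_ (1 / (-s.im)) (ae_of_all _ fun φ => (inv_bound hs _).2)
        exact ((cont_inv hs).comp (by
          have := cont_psi ψ
          fun_prop : Continuous fun φ : ℝ => r * ψ (φ : UnitAddCircle) + a)).aestronglyMeasurable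
      rw [← integral_sub (hint t ht) (hint t' ht')]
      have h4 : ∀ φ : ℝ, ‖1 / (t + ((r * ψ (φ : UnitAddCircle) + a : ℝ) : ℂ)) -
          1 / (t' + ((r * ψ (φ : UnitAddCircle) + a : ℝ) : ℂ))‖ ≤ ‖t - t'‖ / (t.im * t'.im) := by
        intro φ
        generalize (r * ψ (φ : UnitAddCircle) + a : ℝ) = b
        have b1 := inv_bound ht b
        have b2 := inv_bound ht' b
        have e : 1 / (t + (b : ℂ)) - 1 / (t' + (b : ℂ)) =
            -(t - t') * ((1 / (t + (b : ℂ))) * (1 / (t' + (b : ℂ)))) := by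
          have c1 := b1.1
          have c2 := b2.1
          field_simp
          ring
        rw [e, norm_mul, norm_mul, norm_neg]
        calc ‖t - t'‖ * (‖1 / (t + (b : ℂ))‖ * ‖1 / (t' + (b : ℂ))‖) ≤
            ‖t - t'‖ * ((1 / (-t.im)) * (1 / (-t'.im))) := by
              have : 0 < -t.im := by linarith
              have : 0 < -t'.im := by linarith
              gcongr
              · exact b1.2
              · exact b2.2
          _ = _ := by
            have : t.im ≠ 0 := ht.ne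
            have : t'.im ≠ 0 := ht'.ne
            field_simp
      have h5 := norm_integral_le_of_norm_le_const (μ := volume.restrict (Set.Ioc (0 : ℝ) 1))
        (ae_of_all _ h4)
      simpa using h5
    have h5 := norm_integral_le_of_norm_le_const (μ := ρ') (ae_of_all _ h3)
    simpa using h5

end

end Pool.Agent.N130.HB.Lv
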